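import Pool.Agent.Helper49.OT.Defs

/-!
# Numbers attached to the units (piece NUM of MP_398e1f_an)
-/

open scoped Manifold ContDiff Topology
open Set Filter

noncomputable section

namespace HolPH.OT

namespace Num

theorem zeta_pow_eq (k : ℕ) : zeta ^ k = Complex.exp (((2 * Real.pi * k / 5 : ℝ) : ℂ) * Complex.I) := by
  rw [zeta, ← Complex.exp_nat_mul]
  congr 1
  push_cast
  ring

theorem zeta_pow_re (k : ℕ) : (zeta ^ k).re = Real.cos (2 * Real.pi * k / 5) := by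
  rw [zeta_pow_eq, Complex.exp_ofReal_mul_I_re]

theorem norm_zeta : ‖zeta‖ = 1 := by
  have h := zeta_pow_eq 1
  rw [pow_one] at h
  rw [h, Complex.norm_exp_ofReal_mul_I]

theorem zeta_ne_one : zeta ≠ 1 := by
  intro h
  have h1 := zeta_pow_re 1
  rw [pow_one, h, Complex.one_re] at h1
  have h2 : Real.cos (2 * Real.pi * (1 : ℕ) / 5) < 1 := by
    have hp := Real.pi_pos
    have := Real.cos_lt_cos_of_nonneg_of_le_pi (x := 0) (y := 2 * Real.pi * (1 : ℕ) / 5) le_rfl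
      (by push_cast; linarith) (by push_cast; positivity)
    rwa [Real.cos_zero] at this
  linarith

theorem phi5 : 1 + zeta + zeta ^ 2 + zeta ^ 3 + zeta ^ 4 = 0 := by
  have h : (zeta - 1) * (1 + zeta + zeta ^ 2 + zeta ^ 3 + zeta ^ 4) = 0 := by
    linear_combination zeta_pow
  rcases mul_eq_zero.1 h with h | h
  · exact absurd (sub_eq_zero.1 h) zeta_ne_one
  · exact h

theorem conj_zeta : (starRingEnd ℂ) zeta = zeta ^ 4 := by
  have h1 : zeta * (starRingEnd ℂ) zeta = 1 := by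
    rw [Complex.mul_conj, Complex.normSq_eq_norm_sq, norm_zeta]; simp
  have h2 : zeta * zeta ^ 4 = 1 := by
    linear_combination zeta_pow
  have h3 : zeta ≠ 0 := by
    intro h
    rw [h, zero_mul] at h1
    exact zero_ne_one h1
  exact mul_left_cancel₀ h3 (h1.trans h2.symm)

/-- `ρ ζ - 1` -/
def a2 : ℂ := (rho : ℂ) * zeta - 1
/-- `ρ ζ² - 1` -/
def a3 : ℂ := (rho : ℂ) * zeta ^ 2 - 1
/-- `(ρ ζ)³ + (ρ ζ)² - 1` -/
def b2 : ℂ := ((rho : ℂ) * zeta) ^ 3 + ((rho : ℂ) * zeta) ^ 2 - 1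
/-- `(ρ ζ²)³ + (ρ ζ²)² - 1` -/
def b3 : ℂ := ((rho : ℂ) * zeta ^ 2) ^ 3 + ((rho : ℂ) * zeta ^ 2) ^ 2 - 1

theorem u2_mul : (u : C3).2.1 * a2 = 1 := by
  have h := congrArg (fun x : C3 => x.2.1) (Units.mul_inv u)
  exact h

theorem u3_mul : (u : C3).2.2 * a3 = 1 := by
  have h := congrArg (fun x : C3 => x.2.2) (Units.mul_inv u)
  exact h

theorem v2_mul : (v : C3).2.1 * b2 = 1 := by
  have h := congrArg (fun x : C3 => x.2.1) (Units.mul_inv v)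
  exact h

theorem v3_mul : (v : C3).2.2 * b3 = 1 := by
  have h := congrArg (fun x : C3 => x.2.2) (Units.mul_inv v)
  exact h

theorem U2_mul : U2 * ‖a2‖ = 1 := by rw [U2, ← norm_mul, u2_mul, norm_one]
theorem U3_mul : U3 * ‖a3‖ = 1 := by rw [U3, ← norm_mul, u3_mul, norm_one]
theorem V2_mul : V2 * ‖b2‖ = 1 := by rw [V2, ← norm_mul, v2_mul, norm_one]
theorem V3_mul : V3 * ‖b3‖ = 1 := by rw [V3, ← norm_mul, v3_mul, norm_one]

theorem U1_mul : U1 * (rho - 1) = 1 := by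
  unfold U1
  linear_combination rho_pow

theorem V1_mul : V1 * (rho ^ 3 + rho ^ 2 - 1) = 1 := by
  unfold V1
  linear_combination rho ^ 2 * rho_pow

theorem sq_norm (z w : ℂ) (h : (starRingEnd ℂ) z = w) : ((‖z‖ ^ 2 : ℝ) : ℂ) = z * w := by
  rw [← h, Complex.mul_conj, Complex.normSq_eq_norm_sq]

theorem sq_a2 : ((‖a2‖ ^ 2 : ℝ) : ℂ) = ((rho : ℂ) * zeta - 1) * ((rho : ℂ) * zeta ^ 4 - 1) := by
  rw [sq_norm a2 _ rfl]
  simp only [a2, map_sub, map_mul, map_one, Complex.conj_ofReal, conj_zeta]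

theorem sq_a3 : ((‖a3‖ ^ 2 : ℝ) : ℂ) =
    ((rho : ℂ) * zeta ^ 2 - 1) * ((rho : ℂ) * zeta ^ 3 - 1) := by
  rw [sq_norm a3 _ rfl]
  simp only [a3, map_sub, map_mul, map_one, map_pow, Complex.conj_ofReal, conj_zeta]
  linear_combination ((rho : ℂ) * zeta ^ 2 - 1) * (rho : ℂ) * zeta ^ 3 * zeta_pow

theorem sq_b2 : ((‖b2‖ ^ 2 : ℝ) : ℂ) =
    ((rho : ℂ) ^ 3 * zeta ^ 3 + (rho : ℂ) ^ 2 * zeta ^ 2 - 1)
      * ((rho : ℂ) ^ 3 * zeta ^ 2 + (rho : ℂ) ^ 2 * zeta ^ 3 - 1) := by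
  rw [sq_norm b2 _ rfl]
  simp only [b2, map_sub, map_add, map_mul, map_one, map_pow, Complex.conj_ofReal, conj_zeta]
  linear_combination ((rho : ℂ) ^ 3 * zeta ^ 3 + (rho : ℂ) ^ 2 * zeta ^ 2 - 1) *
    ((rho : ℂ) ^ 3 * zeta ^ 2 * (zeta ^ 5 + 1) + (rho : ℂ) ^ 2 * zeta ^ 3) * zeta_pow

theorem sq_b3 : ((‖b3‖ ^ 2 : ℝ) : ℂ) =
    ((rho : ℂ) ^ 3 * zeta + (rho : ℂ) ^ 2 * zeta ^ 4 - 1)
      * ((rho : ℂ) ^ 3 * zeta ^ 4 + (rho : ℂ) ^ 2 * zeta - 1) := by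
  rw [sq_norm b3 _ rfl]
  simp only [b3, map_sub, map_add, map_mul, map_one, map_pow, Complex.conj_ofReal, conj_zeta]
  have e1 : ((rho : ℂ) * zeta ^ 2) ^ 3 + ((rho : ℂ) * zeta ^ 2) ^ 2 - 1
      = (rho : ℂ) ^ 3 * zeta + (rho : ℂ) ^ 2 * zeta ^ 4 - 1 := by
    linear_combination (rho : ℂ) ^ 3 * zeta * zeta_pow
  have e2 : ((rho : ℂ) * (zeta ^ 4) ^ 2) ^ 3 + ((rho : ℂ) * (zeta ^ 4) ^ 2) ^ 2 - 1
      = (rho : ℂ) ^ 3 * zeta ^ 4 + (rho : ℂ) ^ 2 * zeta - 1 := by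
    linear_combination ((rho : ℂ) ^ 3 * zeta ^ 4 * (zeta ^ 15 + zeta ^ 10 + zeta ^ 5 + 1)
      + (rho : ℂ) ^ 2 * zeta * (zeta ^ 10 + zeta ^ 5 + 1)) * zeta_pow
  rw [e1, e2]

theorem norm_a : (rho - 1) * ‖a2‖ ^ 2 * ‖a3‖ ^ 2 = 1 := by
  have h : (((rho - 1) * ‖a2‖ ^ 2 * ‖a3‖ ^ 2 : ℝ) : ℂ) = ((1 : ℝ) : ℂ) := by
    rw [Complex.ofReal_mul, Complex.ofReal_mul, sq_a2, sq_a3]
    push_cast
    set r : ℂ := (rho : ℂ)
    set z : ℂ := zeta
    linear_combination (1 : ℂ) * rhoC_pow +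
      ((1)*r^5*z^6 + (-1)*r^5*z^5 + (1)*r^5*z + (-1)*r^5 + (-1)*r^4*z^6 + (1)*r^3*z^5
        + (1)*r^3*z^3 + (-1)*r^2*z^3 + (-1)*r^2*z + (1)*r) * phi5
  exact_mod_cast h

theorem norm_b : (rho ^ 3 + rho ^ 2 - 1) * ‖b2‖ ^ 2 * ‖b3‖ ^ 2 = 1 := by
  have h : (((rho ^ 3 + rho ^ 2 - 1) * ‖b2‖ ^ 2 * ‖b3‖ ^ 2 : ℝ) : ℂ) = ((1 : ℝ) : ℂ) := by
    rw [Complex.ofReal_mul, Complex.ofReal_mul, sq_b2, sq_b3]
    push_cast
    set r : ℂ := (rho : ℂ)
    set z : ℂ := zeta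
    linear_combination (r ^ 10 - 2 * r ^ 5 + 1) * rhoC_pow +
      ((1)*r^15*z^6 + (-1)*r^15*z^5 + (1)*r^15*z + (-1)*r^15 + (1)*r^14*z^9 + (-1)*r^14*z^8
        + (1)*r^14*z^7 + (1)*r^13*z^10 + (1)*r^13*z^6 + (1)*r^12*z^10 + (-1)*r^11*z^7
        + (-1)*r^11*z^5 + (-1)*r^11*z^4 + (-1)*r^10*z^10 + (1)*r^10*z^9 + (-1)*r^10*z^8
        + (-1)*r^10*z^7 + (-3)*r^10*z^6 + (2)*r^10*z^5 + (-2)*r^10*z^4 + (-4)*r^10*z + (4)*r^10
        + (-1)*r^9*z^9 + (1)*r^9*z^8 + (-2)*r^9*z^7 + (-1)*r^9*z^4 + (1)*r^9*z^3 + (1)*r^8*z^7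
        + (-1)*r^8*z^5 + (2)*r^8*z^4 + (2)*r^8*z^3 + (1)*r^8*z^2 + (1)*r^7*z^7 + (1)*r^7*z^6
        + (-1)*r^7*z^5 + (2)*r^7*z^4 + (2)*r^7*z^3 + (1)*r^7*z^2 + (1)*r^6*z^5 + (-1)*r^6*z
        + (-1)*r^5*z^4 + (-1)*r^5*z^3 + (-1)*r^5*z^2 + (3)*r^5*z + (-5)*r^5 + (-1)*r^4*z^3
        + (-1)*r^4*z + (1)*r^3 + (1)*r^2) * phi5
  exact_mod_cast h

theorem cos_72_lt : Real.cos (2 * Real.pi * (1 : ℕ) / 5) < 1 / 2 := by
  have hp := Real.pi_pos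
  have := Real.cos_lt_cos_of_nonneg_of_le_pi (x := Real.pi / 3) (y := 2 * Real.pi * (1 : ℕ) / 5)
    (by positivity) (by push_cast; linarith) (by push_cast; linarith)
  rwa [Real.cos_pi_div_three] at this

theorem cos_144_neg : Real.cos (2 * Real.pi * (2 : ℕ) / 5) < 0 := by
  have hp := Real.pi_pos
  exact Real.cos_neg_of_pi_div_two_lt_of_lt (by push_cast; linarith) (by push_cast; linarith)

theorem cos_216_neg : Real.cos (2 * Real.pi * (3 : ℕ) / 5) < 0 := by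
  have hp := Real.pi_pos
  exact Real.cos_neg_of_pi_div_two_lt_of_lt (by push_cast; linarith) (by push_cast; linarith)

theorem one_lt_a2 : 1 < ‖a2‖ := by
  have h1 : ‖a2‖ ^ 2 = rho ^ 2 - 2 * rho * zeta.re + 1 := by
    have hz : zeta.re ^ 2 + zeta.im ^ 2 = 1 := by
      have := Complex.sq_norm_sub_sq_re zeta
      rw [norm_zeta] at this
      linarith
    rw [← Complex.normSq_eq_norm_sq, Complex.normSq_apply, a2]
    simp only [Complex.sub_re, Complex.sub_im, Complex.re_ofReal_mul, Complex.im_ofReal_mul,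
      Complex.one_re, Complex.one_im]
    linear_combination rho ^ 2 * hz
  have h2 : zeta.re < 1 / 2 := by
    have := zeta_pow_re 1
    rw [pow_one] at this
    rw [this]
    exact cos_72_lt
  have h3 := one_lt_rho
  have h4 : 1 < ‖a2‖ ^ 2 := by
    rw [h1]
    nlinarith
  by_contra hc
  have := pow_le_one₀ (n := 2) (norm_nonneg a2) (not_lt.1 hc)
  linarith

theorem one_lt_norm_of_re {z : ℂ} (h : z.re < -1) : 1 < ‖z‖ := by
  have h1 := Complex.abs_re_le_norm z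
  have h2 := neg_le_abs z.re
  linarith

theorem one_lt_a3 : 1 < ‖a3‖ := by
  apply one_lt_norm_of_re
  rw [a3, Complex.sub_re, Complex.re_ofReal_mul, Complex.one_re, zeta_pow_re]
  have := mul_neg_of_pos_of_neg rho_pos cos_144_neg
  linarith

theorem one_lt_b2 : 1 < ‖b2‖ := by
  apply one_lt_norm_of_re
  have e : b2 = ((rho ^ 3 : ℝ) : ℂ) * zeta ^ 3 + ((rho ^ 2 : ℝ) : ℂ) * zeta ^ 2 - 1 := by
    rw [b2]; push_cast; ring
  rw [e, Complex.sub_re, Complex.add_re, Complex.re_ofReal_mul, Complex.re_ofReal_mul,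
    Complex.one_re, zeta_pow_re, zeta_pow_re]
  have h1 := mul_neg_of_pos_of_neg (pow_pos rho_pos 3) cos_216_neg
  have h2 := mul_neg_of_pos_of_neg (pow_pos rho_pos 2) cos_144_neg
  linarith

theorem lt_one_of_mul {x y : ℝ} (hx : 0 < x) (h : x * y = 1) (hy : 1 < y) : x < 1 := by
  nlinarith

end Num

open HolPH.OT.Num

theorem one_lt_U1 : 1 < U1 := by
  have h := one_lt_rho
  have := rho_pos
  unfold U1
  have : 0 < rho ^ 2 + rho ^ 3 + rho ^ 4 := by positivity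
  linarith

theorem U2_pos : 0 < U2 := by
  rw [U2, norm_pos_iff]
  intro h
  have := u2_mul
  rw [h, zero_mul] at this
  exact zero_ne_one this

theorem U2_lt_one : U2 < 1 := lt_one_of_mul U2_pos U2_mul one_lt_a2

theorem U3_pos : 0 < U3 := by
  rw [U3, norm_pos_iff]
  intro h
  have := u3_mul
  rw [h, zero_mul] at this
  exact zero_ne_one this

theorem U3_lt_one : U3 < 1 := lt_one_of_mul U3_pos U3_mul one_lt_a3

theorem U_norm : U1 * U2 ^ 2 * U3 ^ 2 = 1 := by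
  have h1 := U1_mul
  have h2 := U2_mul
  have h3 := U3_mul
  have h4 := norm_a
  calc U1 * U2 ^ 2 * U3 ^ 2 = U1 * U2 ^ 2 * U3 ^ 2 * ((rho - 1) * ‖a2‖ ^ 2 * ‖a3‖ ^ 2) := by
        rw [h4, mul_one]
    _ = (U1 * (rho - 1)) * (U2 * ‖a2‖) ^ 2 * (U3 * ‖a3‖) ^ 2 := by ring
    _ = 1 := by rw [h1, h2, h3]; ring

theorem V1_lt_one : V1 < 1 := by
  have h := one_lt_rho
  refine lt_one_of_mul V1_pos V1_mul ?_
  have h2 : 1 < rho ^ 2 := one_lt_pow₀ h two_ne_zero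
  have h3 : 1 < rho ^ 3 := one_lt_pow₀ h three_ne_zero
  linarith

theorem V2_pos : 0 < V2 := by
  rw [V2, norm_pos_iff]
  intro h
  have := v2_mul
  rw [h, zero_mul] at this
  exact zero_ne_one this

theorem V2_lt_one : V2 < 1 := lt_one_of_mul V2_pos V2_mul one_lt_b2

theorem V3_pos : 0 < V3 := by
  rw [V3, norm_pos_iff]
  intro h
  have := v3_mul
  rw [h, zero_mul] at this
  exact zero_ne_one this

theorem V_norm : V1 * V2 ^ 2 * V3 ^ 2 = 1 := by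
  have h1 := V1_mul
  have h2 := V2_mul
  have h3 := V3_mul
  have h4 := norm_b
  calc V1 * V2 ^ 2 * V3 ^ 2
        = V1 * V2 ^ 2 * V3 ^ 2 * ((rho ^ 3 + rho ^ 2 - 1) * ‖b2‖ ^ 2 * ‖b3‖ ^ 2) := by
        rw [h4, mul_one]
    _ = (V1 * (rho ^ 3 + rho ^ 2 - 1)) * (V2 * ‖b2‖) ^ 2 * (V3 * ‖b3‖) ^ 2 := by ring
    _ = 1 := by rw [h1, h2, h3]; ring

namespace Num

theorem log_U1_pos : 0 < Real.log U1 := Real.log_pos one_lt_U1

theorem al2_pos : 0 < al2 := by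
  rw [al2]
  exact div_pos (neg_pos.2 (Real.log_neg U2_pos U2_lt_one)) log_U1_pos

theorem al3_pos : 0 < al3 := by
  rw [al3]
  exact div_pos (neg_pos.2 (Real.log_neg U3_pos U3_lt_one)) log_U1_pos

theorem al_add : al2 + al3 = 1 / 2 := by
  have h := congrArg Real.log U_norm
  rw [Real.log_mul (mul_ne_zero U1_pos.ne' (pow_ne_zero _ U2_pos.ne')) (pow_ne_zero _ U3_pos.ne'),
    Real.log_mul U1_pos.ne' (pow_ne_zero _ U2_pos.ne'), Real.log_pow, Real.log_pow,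
    Real.log_one] at h
  push_cast at h
  have h0 := log_U1_pos.ne'
  rw [al2, al3]
  field_simp
  linarith

end Num

/-- from `al2 > 0` and `V1, V2 < 1` -/
theorem lam_pos : 0 < lam := mul_pos (Real.rpow_pos_of_pos V1_pos _) V2_pos

theorem lam_lt_one : lam < 1 := by
  have h1 : V1 ^ al2 < 1 := Real.rpow_lt_one V1_pos.le V1_lt_one al2_pos
  have h2 : 0 < V1 ^ al2 := Real.rpow_pos_of_pos V1_pos _
  rw [lam]
  have := V2_pos
  have := V2_lt_one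
  nlinarith

/-- from the two norm relations (`al2 + al3 = 1/2`) -/
theorem lam_inv : V1 ^ al3 * V3 = lam⁻¹ := by
  refine eq_inv_of_mul_eq_one_left ?_
  rw [lam]
  have e : V1 ^ al3 * V3 * (V1 ^ al2 * V2) = √V1 * V2 * V3 := by
    have : V1 ^ al2 * V1 ^ al3 = √V1 := by
      rw [← Real.rpow_add V1_pos, al_add, Real.sqrt_eq_rpow]
    rw [← this]
    ring
  rw [e]
  have h : (√V1 * V2 * V3) ^ 2 = 1 := by
    rw [mul_pow, mul_pow, Real.sq_sqrt V1_pos.le, V_norm]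
  have hp : 0 < √V1 * V2 * V3 := mul_pos (mul_pos (Real.sqrt_pos.2 V1_pos) V2_pos) V3_pos
  exact (pow_eq_one_iff_of_nonneg hp.le two_ne_zero).1 h

theorem U1_al2 : U1 ^ al2 * U2 = 1 := by
  rw [Real.rpow_def_of_pos U1_pos, al2]
  have h : Real.log U1 * (-Real.log U2 / Real.log U1) = -Real.log U2 := by
    have := log_U1_pos.ne'
    field_simp
  rw [h, Real.exp_neg, Real.exp_log U2_pos, inv_mul_cancel₀ U2_pos.ne']

theorem U1_al3 : U1 ^ al3 * U3 = 1 := by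
  rw [Real.rpow_def_of_pos U1_pos, al3]
  have h : Real.log U1 * (-Real.log U3 / Real.log U1) = -Real.log U3 := by
    have := log_U1_pos.ne'
    field_simp
  rw [h, Real.exp_neg, Real.exp_log U3_pos, inv_mul_cancel₀ U3_pos.ne']

end HolPH.OT
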